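import Pool.Agent.Lib.MP_e1e800_lc.Final

/-!
# MP_e1e800_lc: `mt_d(n,2) ≥ n²/4 + c n^{1.3}`

The definitions `MPe1e800.step`, `run`, `Mortal`, `threshold`, `mtd` are in
`Pool/Agent/Lib/MP_e1e800_lc/Defs.lean`.
-/

namespace Pool.Agent.Results.MP_e1e800_lc.GrigorchukTail

open MPe1e800

/-- The mortality threshold of binary partial DFAs exceeds `n²/4` by at least `c n^{1.3}`. -/
theorem result : ∃ c : ℝ, 0 < c ∧ ∃ N : ℕ, ∀ n ≥ N,
    (n : ℝ) ^ 2 / 4 + c * (n : ℝ) ^ (1.3 : ℝ) ≤ (mtd n 2 : ℝ) :=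
  final_bound

end Pool.Agent.Results.MP_e1e800_lc.GrigorchukTail
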