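import Pool.Agent.Lib.MP_e1e800_lc_INJ.Scc

/-!
# MP_e1e800_lc: automata whose letters are injective inside the strongly connected components

Definitions: `MPe1e800.step`, `run`, `Mortal`, `threshold` are in
`Pool/Agent/Lib/MP_e1e800_lc/Defs.lean`; `Reach`, `SccInj` are in
`Pool/Agent/Lib/MP_e1e800_lc_INJ/Scc.lean`.
-/

namespace Pool.Agent.Results.MP_e1e800_lc.InjectiveLetters

open MPe1e800 MPe1e800INJ

/-- Mortality thresholds are at most `20 √m n^{3/2} log (n+1)` for letters which are injective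
inside the strongly connected components; in particular `7n²/16 + Cn` holds for them. -/
theorem result :
    (∀ (n m : ℕ) (δ : Fin n → Fin m → Option (Fin n)), SccInj δ →
      (∃ w : List (Fin m), Mortal δ w) →
      (threshold δ : ℝ) ≤ 20 * Real.sqrt m * (n : ℝ) ^ (3 / 2 : ℝ) * Real.log (n + 1)) ∧
    (∃ C : ℝ, ∀ (n : ℕ) (δ : Fin n → Fin 2 → Option (Fin n)), SccInj δ →
      (∃ w : List (Fin 2), Mortal δ w) →
      (threshold δ : ℝ) ≤ 7 * (n : ℝ) ^ 2 / 16 + C * n) :=
  ⟨scc_bound, scc_conj⟩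

end Pool.Agent.Results.MP_e1e800_lc.InjectiveLetters
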