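import Pool.Agent.Lib.MP_e1e800_lc_INJ.Low

/-!
# MP_e1e800_lc: two injective letters with threshold at least `n^{1.3}`

Definitions: `MPe1e800.step`, `run`, `Mortal`, `threshold` are in
`Pool/Agent/Lib/MP_e1e800_lc/Defs.lean`; `InjLetters` is in
`Pool/Agent/Lib/MP_e1e800_lc_INJ/Aut.lean`.
-/

namespace Pool.Agent.Results.MP_e1e800_lc.InjectiveLower

open MPe1e800 MPe1e800INJ

/-- Two injective letters can have a superlinear mortality threshold. -/
theorem result : ∀ n : ℕ, 80000 ≤ n → ∃ δ : Fin n → Fin 2 → Option (Fin n), InjLetters δ ∧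
    (∃ w : List (Fin 2), Mortal δ w) ∧ (n : ℝ) ^ (1.3 : ℝ) / 80000 ≤ (threshold δ : ℝ) :=
  low_bound

end Pool.Agent.Results.MP_e1e800_lc.InjectiveLower
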