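import Pool.Agent.Lib.MP_e1e800_lc_UB.Main

/-!
# MP_e1e800_lc: an upper bound for the mortality threshold over small alphabets

Definitions: `MPe1e800.step`, `run`, `Mortal`, `threshold`, `mtd` are in
`Pool/Agent/Lib/MP_e1e800_lc/Defs.lean`.
-/

namespace Pool.Agent.Results.MP_e1e800_lc.UpperBound

open MPe1e800

/-- For every `c > 0` there is `c' > 0` such that for all large `n` and all `m ≤ n ^ c'` (for
example `m = 2`) the mortality thresholds of the automata with `n` states and `m` letters are at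
most `n² / 2 - n ^ (2 - c)`. -/
theorem result (c : ℝ) (hc : 0 < c) : ∃ c' : ℝ, 0 < c' ∧ ∃ N : ℕ, ∀ n : ℕ, N ≤ n →
    ∀ m : ℕ, (m : ℝ) ≤ (n : ℝ) ^ c' →
    (∀ δ : Fin n → Fin m → Option (Fin n), (∃ w : List (Fin m), Mortal δ w) →
      (threshold δ : ℝ) ≤ (n : ℝ) ^ 2 / 2 - (n : ℝ) ^ (2 - c)) ∧
    (mtd n m : ℝ) ≤ (n : ℝ) ^ 2 / 2 - (n : ℝ) ^ (2 - c) :=
  MortUB.main_mtd c hc

end Pool.Agent.Results.MP_e1e800_lc.UpperBound
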